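import Pool.Agent.X43.MD.C

/-! A `Π⁰₁` class whose computable members are pairwise almost disjoint and maximal. -/

set_option autoImplicit false

namespace Pool.Agent.Results.MP_054fd8_lc.ComputableMad

open Pool.Agent.X43.MD Pool.Agent.Helper446.RE Encodable

open Classical in
/-- The initial segment of length `n` of the characteristic function of `X`. -/
noncomputable def initSeg (X : Set ℕ) (n : ℕ) : List Bool :=
  (List.range n).map fun i => decide (i ∈ X)

/-- `P` is a `Π⁰₁` class: the set of the infinite paths through some computable binary tree. -/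
def IsPiZeroOneClass (P : Set (Set ℕ)) : Prop :=
  ∃ T : Set (List Bool), ComputablePred (fun σ => σ ∈ T) ∧
    (∀ σ τ : List Bool, σ <+: τ → τ ∈ T → σ ∈ T) ∧
    ∀ X : Set ℕ, X ∈ P ↔ ∀ n, initSeg X n ∈ T

/-- `X` is a computable set. -/
def IsComputable (X : Set ℕ) : Prop := ComputablePred fun n => n ∈ X

open Classical in
/-- characteristic function -/
noncomputable def ch (X : Set ℕ) (i : ℕ) : Bool := decide (i ∈ X)

theorem ch_iff {X : Set ℕ} {i : ℕ} : ch X i = true ↔ i ∈ X := by unfold ch; simp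

theorem initSeg_getD {X : Set ℕ} {n i : ℕ} (h : i < n) :
    (initSeg X n).getD i false = ch X i := by
  unfold initSeg ch
  rw [List.getD_eq_getElem _ _ (by simpa using h)]
  simp

theorem T_initSeg (X : Set ℕ) (n : ℕ) :
    T (initSeg X n) ↔ ∀ m < n, Least (ch X) m → Q (ch X) n m := by
  have hlen : (initSeg X n).length = n := by simp [initSeg]
  unfold T
  rw [hlen]
  have h1 : ∀ i < n, (fun i => (initSeg X n).getD i false) i = ch X i :=
    fun i hi => initSeg_getD hi
  refine forall_congr' fun m => forall_congr' fun hm => ?_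
  rw [least_congr h1 hm]
  refine imp_congr_right fun _ => ?_
  exact ⟨Q_congr h1, Q_congr fun i hi => (h1 i hi).symm⟩

/-- The class. -/
def PP : Set (Set ℕ) := {X | ∀ n, T (initSeg X n)}

theorem mem_PP {X : Set ℕ} : X ∈ PP ↔ ∀ m, Least (ch X) m → ∀ n, Q (ch X) n m := by
  show (∀ n, T (initSeg X n)) ↔ _
  simp only [T_initSeg]
  constructor
  · intro h m hl n
    exact Q_mono (Nat.le_add_right n (m + 1)) (h (n + (m + 1)) m (by omega) hl)
  · intro h n m _ hl
    exact h m hl n

theorem structure_inf {X : Set ℕ} (hX : X ∈ PP) (hinf : X.Infinite) :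
    ∃ L, X = XX L ∧ Inf L ∧ Cl L := by
  classical
  rw [mem_PP] at hX
  have hne : ∃ i, i ∈ X := hinf.nonempty
  obtain ⟨m, hm, hmin⟩ : ∃ m, m ∈ X ∧ ∀ j < m, j ∉ X :=
    ⟨Nat.find hne, Nat.find_spec hne, fun j hj => Nat.find_min hne hj⟩
  have hl : Least (ch X) m := by
    refine ⟨ch_iff.2 hm, fun j hj => ?_⟩
    rw [← Bool.not_eq_true, ch_iff]
    exact hmin j hj
  have hQ := hX m hl
  have hem : encode (lst m) = m := Denumerable.encode_ofNat m
  have hb : ∀ x ∈ X, x ≠ m → ∃ w, acc (lst m) w = true ∧ w.unpair.1 = x := by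
    intro x hx hxm
    have hmx : m < x := by
      rcases lt_trichotomy x m with h | h | h
      · exact absurd hx (hmin x h)
      · exact absurd h hxm
      · exact h
    obtain ⟨y, hy, hxy⟩ := hinf.exists_gt x
    obtain ⟨w, -, h1, h2⟩ := (hQ (y + 1)).b y (by omega) (ch_iff.2 hy) x hxy hmx (ch_iff.2 hx)
    exact ⟨w, h1, h2⟩
  refine ⟨lst m, ?_, ?_, ?_⟩
  · ext x
    constructor
    · intro hx
      by_cases hxm : x = m
      · left; rw [hem]; exact hxm
      · right; exact hb x hx hxm
    · rintro (h | ⟨w, h1, h2⟩)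
      · rw [hem] at h; rw [h]; exact hm
      · obtain ⟨y, hy, hwy⟩ := hinf.exists_gt (w + m)
        have := (hQ (y + 1)).c y (by omega) (by omega) (ch_iff.2 hy) w (by omega) h1
        rw [h2] at this
        exact ch_iff.1 this
  · intro N
    obtain ⟨x, hx, hx2⟩ := hinf.exists_gt (N + m)
    obtain ⟨w, h1, h2⟩ := hb x hx (by omega)
    exact ⟨w, by have := Nat.unpair_left_le w; omega, h1⟩
  · intro k hk h0
    exact ⟨fun t ht => ((hQ (t + 1)).a k hk h0).1 t (by omega) ht, ((hQ 0).a k hk h0).2⟩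

theorem mem_of_good {L : List ℕ} (hG : Good L) : XX L ∈ PP := by
  rw [mem_PP]
  intro m hl n
  have hle : ∀ x ∈ XX L, encode L ≤ x := by
    rintro x (h | ⟨w, h1, h2⟩)
    · exact h.ge
    · rw [← h2]; exact (XX_lt h1).le
  have hm : m = encode L := by
    rcases lt_trichotomy m (encode L) with h | h | h
    · exact absurd (hle m (ch_iff.1 hl.1)) (by omega)
    · exact h
    · have h1 := hl.2 (encode L) h
      rw [← Bool.not_eq_true, ch_iff] at h1
      exact absurd (Or.inl rfl) h1
  subst hm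
  have hx : ∀ x, encode L < x → x ∈ XX L → ∃ w, acc L w = true ∧ w.unpair.1 = x := by
    rintro x h1 (h | h)
    · omega
    · exact h
  refine ⟨?_, ?_, ?_⟩
  · rw [lst_encode]
    exact fun k hk h0 => ⟨fun t _ ht => (hG.1 k hk h0).1 t ht, (hG.1 k hk h0).2⟩
  · rw [lst_encode]
    intro y _ hy x hxy hmx hxx
    obtain ⟨w, h1, h2⟩ := hx x hmx (ch_iff.1 hxx)
    obtain ⟨v, h3, h4⟩ := hx y (by omega) (ch_iff.1 hy)
    refine ⟨w, ?_, h1, h2⟩
    rcases lt_trichotomy w v with h | h | h
    · rw [← h4]; exact acc_lt h1 h3 h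
    · subst h; omega
    · have := acc_mono h3 h1 h
      omega
  · rw [lst_encode]
    intro y _ _ _ w _ hw
    exact ch_iff.2 (Or.inr ⟨w, hw, rfl⟩)

theorem computable_XX {L : List ℕ} (h : Inf L) : IsComputable (XX L) := by
  refine cp_of_re ?_ ?_
  · have h1 : REPred fun x : ℕ => x = encode L ∨ ∃ w, acc L w = true ∧ w.unpair.1 = x := by
      refine or (eq (by fun_prop) (by fun_prop)) ?_
      refine exN (p := fun x w => acc L w = true ∧ w.unpair.1 = x) ?_
      refine and (of_bool ?_) (eq ?_ ?_) <;> fun_prop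
    exact h1
  · have h1 : REPred fun x : ℕ => x ≠ encode L ∧ ∃ w, avoid (acc L) x w = true := by
      refine and (ne (by fun_prop) (by fun_prop)) ?_
      refine exN (p := fun x w => avoid (acc L) x w = true) (of_bool ?_)
      exact avoid_comp (a := fun _ : ℕ × ℕ => acc L) (by fun_prop) (by fun_prop) (by fun_prop)
    refine h1.of_eq fun x => ?_
    constructor
    · rintro ⟨h2, w, h3⟩ (h4 | ⟨u, hu, hux⟩)
      · exact h2 h4
      · rw [avoid_iff] at h3
        obtain ⟨v, -, h4, h5, h6⟩ := h3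
        rcases lt_trichotomy u v with h7 | h7 | h7
        · exact h6 u h7 hu hux
        · subst h7; omega
        · have := acc_mono h4 hu h7
          omega
    · intro h2
      refine ⟨fun h3 => h2 (Or.inl h3), ?_⟩
      obtain ⟨v, h3, h4⟩ := h.exi x
      refine ⟨v + 1, ?_⟩
      rw [avoid_iff]
      exact ⟨v, by omega, h3, h4, fun u _ hu hux => h2 (Or.inr ⟨u, hu, hux⟩)⟩

theorem computable_of_finite {X : Set ℕ} (h : X.Finite) : IsComputable X := by
  classical
  have h1 : ComputablePred fun x : ℕ => x ∈ h.toFinset.toList :=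
    cp_mem (f := fun x : ℕ => x) (l := fun _ => h.toFinset.toList) Computable.id
      (Computable.const _)
  exact h1.of_eq fun x => by simp

theorem xx_sparse {L : List ℕ} {x y : ℕ} (hx : x ∈ XX L) (hy : y ∈ XX L) (h1 : encode L < x)
    (h : x < y) : x ^ 2 < y := by
  have key : ∀ z ∈ XX L, encode L < z → ∃ w, acc L w = true ∧ w.unpair.1 = z := by
    rintro z (h2 | h2) h3
    · omega
    · exact h2
  obtain ⟨u, hu, hux⟩ := key x hx h1
  obtain ⟨w, hw, hwy⟩ := key y hy (h1.trans h)
  have h4 : u < w := by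
    rcases lt_trichotomy u w with h5 | h5 | h5
    · exact h5
    · subst h5; omega
    · have := acc_mono hw hu h5
      omega
  have h5 := acc_lt hu hw h4
  have h6 := Nat.max_sq_add_min_le_pair u.unpair.1 u.unpair.2
  rw [Nat.pair_unpair] at h6
  have h7 : u.unpair.1 ^ 2 ≤ max u.unpair.1 u.unpair.2 ^ 2 :=
    Nat.pow_le_pow_left (le_max_left _ _) 2
  rw [← hux, ← hwy]
  omega

/-- A finite union of infinite members is not cofinite. -/
theorem co_infinite (F : Finset (Set ℕ)) (hF : ∀ X ∈ F, X ∈ PP ∧ X.Infinite) :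
    {x : ℕ | ∀ X ∈ F, x ∉ X}.Infinite := by
  classical
  have h1 : ∀ X ∈ F, ∃ m : ℕ, ∀ x ∈ X, ∀ y ∈ X, m < x → x < y → x ^ 2 < y := by
    intro X hX
    obtain ⟨L, rfl, -, -⟩ := structure_inf (hF X hX).1 (hF X hX).2
    exact ⟨encode L, fun x hx y hy h1 h2 => xx_sparse hx hy h1 h2⟩
  have h2 : ∃ M : ℕ, ∀ X ∈ F, ∀ x ∈ X, ∀ y ∈ X, M < x → x < y → x ^ 2 < y := by
    choose! m hm using h1
    refine ⟨F.sup m, fun X hX x hx y hy h3 h4 => hm X hX x hx y hy ?_ h4⟩
    exact lt_of_le_of_lt (Finset.le_sup (f := m) hX) h3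
  obtain ⟨M, hM⟩ := h2
  refine Set.infinite_of_forall_exists_gt fun N => ?_
  by_contra hcon
  have h3 : ∀ x, N < x → ∃ X ∈ F, x ∈ X := by
    intro x hx
    by_contra h4
    exact hcon ⟨x, fun X hX hxX => h4 ⟨X, hX, hxX⟩, hx⟩
  set a := N + M + F.card + 2 with ha
  have h5 : ∀ i : ℕ, ∃ X ∈ F, a + i ∈ X := fun i => h3 (a + i) (by omega)
  choose f hf1 hf2 using h5
  obtain ⟨i, hi, j, hj, hij, hfij⟩ := Finset.exists_ne_map_eq_of_card_lt_of_maps_to
    (s := Finset.range (F.card + 1)) (t := F) (by simp) (f := f) (fun i _ => hf1 i)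
  have key : ∀ i j : ℕ, i < j → j < F.card + 1 → f i = f j → False := by
    intro i j hij hj hfij
    have h6 := hM (f i) (hf1 i) (a + i) (hf2 i) (a + j) (by rw [hfij]; exact hf2 j) (by omega)
      (by omega)
    nlinarith
  rw [Finset.mem_range] at hi hj
  rcases lt_or_gt_of_ne hij with h | h
  · exact key i j h hj hfij
  · exact key j i h hi hfij.symm

theorem re_compl (F : Finset (Set ℕ)) (hF : ∀ X ∈ F, IsComputable X) :
    REPred fun x : ℕ => ∀ X ∈ F, x ∉ X := by
  classical
  induction F using Finset.induction_on with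
  | empty =>
    refine (of_bool (f := fun _ : ℕ => true) (by fun_prop)).of_eq fun x => by simp
  | insert X F hX ih =>
    have h1 : REPred fun x : ℕ => x ∉ X ∧ ∀ Y ∈ F, x ∉ Y := by
      refine and ?_ (ih fun Y hY => hF Y (Finset.mem_insert_of_mem hY))
      exact (hF X (Finset.mem_insert_self X F)).not.to_re
    exact h1.of_eq fun x => by simp

/-- There is a `Π⁰₁` class with infinitely many infinite members, all of whose members are computable and pairwise almost disjoint, such
that every infinite computable (even: every infinite computably enumerable) set has infinite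
intersection with a member of it. -/
theorem result : ∃ P : Set (Set ℕ), IsPiZeroOneClass P ∧
    {X : Set ℕ | X ∈ P ∧ X.Infinite}.Infinite ∧
    (∀ X ∈ P, IsComputable X) ∧
    (∀ X ∈ P, ∀ Y ∈ P, X ≠ Y → (X ∩ Y).Finite) ∧
    (∀ R : Set ℕ, R.Infinite → REPred (fun n => n ∈ R) → ∃ X ∈ P, (X ∩ R).Infinite) ∧
    ∀ R : Set ℕ, R.Infinite → IsComputable R → ∃ X ∈ P, IsComputable X ∧ (X ∩ R).Infinite := by
  have hc : ∀ X ∈ PP, IsComputable X := by
    intro X hX
    by_cases h : X.Finite
    · exact computable_of_finite h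
    · obtain ⟨L, rfl, h1, -⟩ := structure_inf hX h
      exact computable_XX h1
  have hr : ∀ R : Set ℕ, R.Infinite → REPred (fun n => n ∈ R) →
      ∃ X ∈ PP, (X ∩ R).Infinite := by
    intro R hR hre
    obtain ⟨e, he⟩ := wst_univ hre
    obtain ⟨L, h1, -, h3⟩ := maximal R hR he
    exact ⟨XX L, mem_of_good h1, h3⟩
  refine ⟨PP, ⟨{σ | T σ}, cT, fun σ τ h1 h2 => T_prefix h1 h2, fun X => Iff.rfl⟩, ?_, hc, ?_,
    hr, ?_⟩
  · intro hfin
    have hF : ∀ X ∈ hfin.toFinset, X ∈ PP ∧ X.Infinite := fun X hX => by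
      simpa using hX
    obtain ⟨X, hX, h⟩ := hr _ (co_infinite hfin.toFinset hF)
      (re_compl hfin.toFinset fun X hX => hc X (hF X hX).1)
    have hXF : X ∈ hfin.toFinset := by
      simpa using ⟨hX, h.mono Set.inter_subset_left⟩
    obtain ⟨x, hx1, hx2⟩ := h.nonempty
    exact hx2 X hXF hx1
  · intro X hX Y hY hne
    by_cases h1 : X.Finite
    · exact h1.subset Set.inter_subset_left
    by_cases h2 : Y.Finite
    · exact h2.subset Set.inter_subset_right
    obtain ⟨L, rfl, h3, h4⟩ := structure_inf hX h1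
    obtain ⟨M, rfl, h5, h6⟩ := structure_inf hY h2
    exact almost_disjoint (fun h => hne (by rw [h])) h3 h5 h4 h6
  · intro R hR hcR
    obtain ⟨X, hX, h⟩ := hr R hR hcR.to_re
    exact ⟨X, hX, hc X hX, h⟩

end Pool.Agent.Results.MP_054fd8_lc.ComputableMad
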